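import Pool.Agent.H94.NP.Main

namespace Pool.Agent.Results.MP_051ecf_co.QOneNegative

open Pool.Agent.H12.Ball Pool.Agent.H94.NP

universe u

/-- For every `k ≥ 2` there is a simplicial ball of dimension `k + 1`, `k`-fold acyclic over every
field, whose face poset cannot be partitioned into boolean intervals of rank at least `k`; in
particular it has no partition into rank `k` boolean intervals. -/
theorem result : ∀ k : ℕ, 2 ≤ k →
    ∃ (n : ℕ) (Δ : Set (Finset (Fin n))), IsSimplicialBall (k + 1) Δ ∧
      (∀ (𝕜 : Type u) [Field 𝕜], KFoldAcyclic 𝕜 k Δ) ∧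
      ¬ ∃ D, IntervalPartition k Δ D :=
  fun k hk => main k hk

end Pool.Agent.Results.MP_051ecf_co.QOneNegative
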