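import Pool.Agent.H12.BallMain

namespace Pool.Agent.Results.MP_051ecf_co.QTwoNegative

open Pool.Agent.H12.Ball

universe u

/-- For all `k, d` with `2 ≤ k < d` there is a simplicial ball of dimension `d`, `k`-fold acyclic
over every field, which has a rank `k` boolean interval decomposition, but none whose bottoms
form a subcomplex. -/
theorem result : ∀ k d : ℕ, 2 ≤ k → k < d →
    ∃ (n : ℕ) (Δ : Set (Finset (Fin n))), IsSimplicialBall d Δ ∧
      (∀ (𝕜 : Type u) [Field 𝕜], KFoldAcyclic 𝕜 k Δ) ∧
      (∃ D, IsDecomposition k Δ D) ∧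
      ¬ ∃ D, IsDecomposition k Δ D ∧ IsComplex (bottoms D) :=
  fun k d hk hkd => main k d hk hkd

end Pool.Agent.Results.MP_051ecf_co.QTwoNegative
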